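import Mathlib

set_option autoImplicit false

namespace Pool.Agent.Results.MP_3ac9ea_co.Stable

open Finset

/-- `w` is a restricted growth function (the supremum of the empty prefix is `0`). -/
def IsRGF {n : ℕ} (w : Fin n → ℕ) : Prop :=
  ∀ i, 1 ≤ w i ∧ w i ≤ 1 + (univ.filter fun j => j < i).sup w

/-- `w` avoids the pattern `1221`. -/
def Avoids {n : ℕ} (w : Fin n → ℕ) : Prop :=
  ¬ ∃ a b c d : Fin n, a < b ∧ b < c ∧ c < d ∧ w a = w d ∧ w d < w b ∧ w b = w c

/-- The number of distinct values larger than `w j` to the right of position `j`. -/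
def rbAt {n : ℕ} (w : Fin n → ℕ) (j : Fin n) : ℕ :=
  (((univ.filter fun i => j < i).image w).filter fun x => w j < x).card

/-- The statistic `rb`. -/
def rb {n : ℕ} (w : Fin n → ℕ) : ℕ := ∑ j, rbAt w j

/-- The coefficient of `q ^ k` in `RB_n(1221)`. -/
noncomputable def coeff (n k : ℕ) : ℕ :=
  Nat.card {w : Fin n → ℕ // IsRGF w ∧ Avoids w ∧ rb w = k}

theorem rgf_iff {n : ℕ} (w : Fin n → ℕ) :
    IsRGF w ↔ ∀ i, 1 ≤ w i ∧ (w i ≤ 1 ∨ ∃ j < i, w i ≤ 1 + w j) := by
  refine forall_congr' fun i => and_congr_right fun _ => ⟨fun h => ?_, ?_⟩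
  · rcases (univ.filter fun j => j < i).eq_empty_or_nonempty with e | e
    · left
      simpa [e] using h
    · obtain ⟨j, hj, e⟩ := exists_mem_eq_sup _ e w
      exact .inr ⟨j, by simpa using hj, e ▸ h⟩
  · rintro (h | ⟨j, hj, h⟩)
    · omega
    · have := le_sup (f := w) (s := univ.filter fun j => j < i) (b := j) (by simpa using hj)
      omega

theorem earlier {n : ℕ} {w : Fin n → ℕ} (h : IsRGF w) (y : ℕ) (hy : 1 ≤ y) (b : Fin n) :
    y < w b → ∃ a < b, w a = y := by
  induction b using WellFoundedLT.induction with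
  | ind b ih =>
    intro hb
    rcases ((rgf_iff w).1 h b).2 with h1 | ⟨j, hj, h1⟩
    · omega
    · by_cases e : w j = y
      · exact ⟨j, hj, e⟩
      · obtain ⟨a, ha, e⟩ := ih j hj (by omega)
        exact ⟨a, ha.trans hj, e⟩

/-- The map merging the last two positions. -/
def pr (n : ℕ) (i : Fin (n + 2)) : Fin (n + 1) := ⟨min i n, by omega⟩

theorem pr_cast (n : ℕ) (j : Fin (n + 1)) : pr n j.castSucc = j := by
  ext; simp only [pr, Fin.val_castSucc]; omega

theorem rgf_pr {n : ℕ} (w : Fin (n + 1) → ℕ) : IsRGF (w ∘ pr n) ↔ IsRGF w := by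
  simp only [rgf_iff, Function.comp]
  constructor
  · intro h i
    obtain ⟨h1, h2⟩ := h i.castSucc
    rw [pr_cast] at h1 h2
    refine ⟨h1, h2.imp_right fun ⟨j, hj, h3⟩ => ⟨pr n j, ?_, h3⟩⟩
    simp only [Fin.lt_def, pr, Fin.val_castSucc] at hj ⊢
    omega
  · intro h i
    refine ⟨(h _).1, ?_⟩
    by_cases e : (i : ℕ) ≤ n
    · refine (h (pr n i)).2.imp_right fun ⟨j, hj, h3⟩ => ⟨j.castSucc, ?_, by rwa [pr_cast]⟩
      simp only [Fin.lt_def, pr, Fin.val_castSucc] at hj ⊢
      omega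
    · refine .inr ⟨(pr n i).castSucc, ?_, by rw [pr_cast]; omega⟩
      simp only [Fin.lt_def, pr, Fin.val_castSucc]
      omega

theorem av_pr {n : ℕ} (w : Fin (n + 1) → ℕ) : Avoids (w ∘ pr n) ↔ Avoids w := by
  refine not_congr ⟨?_, ?_⟩
  · rintro ⟨a, b, c, d, h1, h2, h3, h4, h5, h6⟩
    simp only [Function.comp] at h4 h5 h6
    have : pr n c ≠ pr n d := fun e => by rw [← e] at h5; omega
    refine ⟨pr n a, pr n b, pr n c, pr n d, ?_, ?_, ?_, h4, h5, h6⟩ <;>
      simp only [Fin.lt_def, pr, ne_eq, Fin.mk.injEq] at h1 h2 h3 this ⊢ <;> omega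
  · rintro ⟨a, b, c, d, h1, h2, h3, h4, h5, h6⟩
    exact ⟨a.castSucc, b.castSucc, c.castSucc, d.castSucc, by simpa, by simpa, by simpa,
      by simpa [pr_cast], by simpa [pr_cast], by simpa [pr_cast]⟩

theorem rb_pr {n : ℕ} (w : Fin (n + 1) → ℕ) : rb (w ∘ pr n) = rb w := by
  unfold rb
  rw [Fin.sum_univ_castSucc]
  have h0 : rbAt (w ∘ pr n) (Fin.last _) = 0 := by
    have : (univ.filter fun i : Fin (n + 2) => Fin.last _ < i) = ∅ :=
      filter_eq_empty_iff.2 fun i _ => not_lt.2 (Fin.le_last i)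
    simp [rbAt, this]
  rw [h0, add_zero]
  refine sum_congr rfl fun j _ => congrArg card ?_
  ext x
  simp only [mem_filter, mem_image, mem_univ, true_and, Function.comp, pr_cast]
  refine and_congr_left fun hx => ⟨?_, ?_⟩
  · rintro ⟨i, hi, rfl⟩
    have : pr n i ≠ j := fun e => by rw [e] at hx; omega
    refine ⟨_, ?_, rfl⟩
    simp only [Fin.lt_def, pr, ne_eq, Fin.ext_iff, Fin.val_castSucc] at hi this ⊢
    omega
  · rintro ⟨i, hi, rfl⟩
    exact ⟨i.castSucc, by simpa, by rw [pr_cast]⟩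

theorem last_eq {n k : ℕ} (hn : 2 * k < n) {w : Fin (n + 2) → ℕ} (h1 : IsRGF w) (h2 : Avoids w)
    (h3 : rb w = k) : w (Fin.last _) = w ⟨n, by omega⟩ := by
  by_contra hne
  obtain ⟨u, v, hu, hv, huv⟩ : ∃ u v : Fin (n + 2), n ≤ u ∧ n ≤ v ∧ w u < w v := by
    rcases lt_or_gt_of_ne hne with h | h
    · exact ⟨_, _, by simp, le_rfl, h⟩
    · exact ⟨_, _, le_rfl, by simp, h⟩
  set A := univ.filter fun j : Fin (n + 2) => (j : ℕ) < n ∧ w j < w v
  set B := univ.filter fun j : Fin (n + 2) => (j : ℕ) < n ∧ w v ≤ w j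
  have hA : A.card ≤ k := by
    rw [← h3, rb, card_eq_sum_ones]
    refine (sum_le_sum fun j hj => ?_).trans (sum_le_sum_of_subset (subset_univ A))
    obtain ⟨-, j1, j2⟩ := mem_filter.1 hj
    refine card_pos.2 ⟨w v, mem_filter.2 ⟨mem_image_of_mem _ ?_, j2⟩⟩
    simp only [mem_filter, mem_univ, true_and, Fin.lt_def]
    omega
  have h0 : w 0 = 1 := by
    have := (rgf_iff w).1 h1 0
    simp only [Fin.not_lt_zero, false_and, exists_false, or_false] at this
    omega
  have hu1 := (h1 u).1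
  have hB : B.card ≤ k := by
    refine le_trans ?_ ((single_le_sum (f := rbAt w) (fun _ _ => Nat.zero_le _)
      (mem_univ 0)).trans h3.le)
    refine card_le_card_of_injOn w (fun j hj => ?_) fun b hb c hc e => ?_
    · obtain ⟨-, j1, j2⟩ := mem_filter.1 (mem_coe.1 hj)
      refine mem_coe.2 (mem_filter.2 ⟨mem_image_of_mem _ ?_, by omega⟩)
      simp only [mem_filter, mem_univ, true_and]
      refine Fin.pos_iff_ne_zero.2 fun e => ?_
      rw [e] at j2
      omega
    · obtain ⟨-, b1, b2⟩ := mem_filter.1 (mem_coe.1 hb)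
      obtain ⟨-, c1, c2⟩ := mem_filter.1 (mem_coe.1 hc)
      by_contra hbc
      rcases lt_or_gt_of_ne hbc with h | h
      · obtain ⟨a, ha, ea⟩ := earlier h1 (w u) hu1 b (by omega)
        exact h2 ⟨a, b, c, u, ha, h, by rw [Fin.lt_def]; omega, ea, by omega, e⟩
      · obtain ⟨a, ha, ea⟩ := earlier h1 (w u) hu1 c (by omega)
        exact h2 ⟨a, c, b, u, ha, h, by rw [Fin.lt_def]; omega, ea, by omega, e.symm⟩
  have : (range n).card ≤ ((A ∪ B).image Fin.val).card := card_le_card fun j hj => by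
    have hj := mem_range.1 hj
    refine mem_image.2 ⟨⟨j, by omega⟩, ?_, rfl⟩
    simp only [A, B, mem_union, mem_filter, mem_univ, true_and]
    omega
  have := card_image_le (s := A ∪ B) (f := Fin.val)
  have := card_union_le A B
  rw [card_range] at *
  omega

theorem step {n k : ℕ} (hn : 2 * k < n) : coeff (n + 2) k = coeff (n + 1) k := by
  symm
  refine Nat.card_congr (Equiv.ofBijective (fun w => ⟨w.1 ∘ pr n, (rgf_pr _).2 w.2.1,
    (av_pr _).2 w.2.2.1, (rb_pr _).trans w.2.2.2⟩) ⟨fun a b e => ?_, fun ⟨w, h1, h2, h3⟩ => ?_⟩)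
  · ext j
    simpa [pr_cast] using congrFun (congrArg Subtype.val e) j.castSucc
  · have e : (w ∘ Fin.castSucc) ∘ pr n = w := by
      funext i
      refine Fin.lastCases ?_ (fun j => ?_) i
      · rw [last_eq hn h1 h2 h3]
        simp [pr]
      · simp [pr_cast]
    rw [← e] at h1 h2 h3
    exact ⟨⟨_, (rgf_pr _).1 h1, (av_pr _).1 h2, (rb_pr _).symm.trans h3⟩, Subtype.ext e⟩

theorem bound {n : ℕ} {w : Fin n → ℕ} (h : IsRGF w) (i : Fin n) : w i ≤ i + 1 := by
  induction i using WellFoundedLT.induction with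
  | ind i ih =>
    rcases ((rgf_iff w).1 h i).2 with h1 | ⟨j, hj, h1⟩
    · omega
    · have := ih j hj
      rw [Fin.lt_def] at hj
      omega

theorem result : (∀ n, Finite {w : Fin n → ℕ // IsRGF w}) ∧
    ∀ k n, 2 * k + 2 ≤ n → coeff n k = coeff (2 * k + 2) k := by
  refine ⟨fun n => Finite.of_injective
    (fun w i => (⟨w.1 i, by have := bound w.2 i; omega⟩ : Fin (n + 1))) fun a b e => ?_,
    fun k n hn => ?_⟩
  · ext i
    simpa using congrFun e i
  induction n, hn using Nat.le_induction with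
  | base => rfl
  | succ n hn ih =>
    obtain ⟨m, rfl⟩ : ∃ m, n = m + 1 := ⟨n - 1, by omega⟩
    rw [step (by omega), ih]

end Pool.Agent.Results.MP_3ac9ea_co.Stable
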